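import Pool.Agent.H.MP_2806c7_co.C

namespace Pool.Agent.Results.MP_2806c7_co.Yes

open MeasureTheory Pool.Agent.H.MP_2806c7_co

theorem result (r n m : ℕ) (hr : 0 < r) (_hn : 0 < n) (_hm : 0 < m)
    (μ : Fin n → Fin m → Measure unitInterval) (hfin : ∀ k j, IsFiniteMeasure (μ k j))
    (hna : ∀ k j t, μ k j {t} = 0) :
    ∃ A : Fin n → Fin r → Set unitInterval,
      (∀ k c, MeasurableSet (A k c)) ∧
      (∀ k c c', c ≠ c' → Disjoint (A k c) (A k c')) ∧
      (∀ k, ⋃ c, A k c = Set.univ) ∧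
      (∀ c j, ∑ k, (μ k j (A k c)).toReal = 1 / (r : ℝ) * ∑ k, (μ k j Set.univ).toReal) ∧
      {k | ∀ c, A k c ≠ Set.univ}.ncard ≤ (r - 1) * m ∧
      ∀ c, ⌊((n : ℚ) - m * (r - 1)) / r⌋ ≤ ({k | A k c = Set.univ}.ncard : ℤ) := by
  classical
  have hN : ∀ k j, NullSingletonClass (μ k j) := fun k j => ⟨hna k j⟩
  set z := ⌊((n : ℚ) - m * (r - 1)) / r⌋ with hz
  obtain ⟨X, ⟨h0, h1, h2, h3⟩, h4⟩ := lp r hr (fun k j => (μ k j).real Set.univ) z.toNat (by
    rcases le_or_gt z 0 with h | h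
    · exact Or.inl (Int.toNat_eq_zero.2 h)
    · right
      have e : ((z.toNat : ℕ) : ℚ) = z := by exact_mod_cast Int.toNat_of_nonneg h.le
      have := Int.floor_le (((n : ℚ) - m * (r - 1)) / r)
      rw [← hz, ← e, le_div_iff₀ (by exact_mod_cast hr)] at this
      have e2 : ((r - 1 : ℕ) : ℚ) = r - 1 := by rw [Nat.cast_sub hr, Nat.cast_one]
      have : (r : ℚ) * z.toNat + m * ((r - 1 : ℕ) : ℚ) ≤ n := by rw [e2]; linarith
      exact_mod_cast this)
  choose A mA dA uA eA fA using fun k => part (μ k) (X k) (h0 k) (h1 k)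
  refine ⟨A, mA, dA, uA, fun c j => ?_, ?_, fun c => ?_⟩
  · have := h2 j c
    have hr' : (r : ℝ) ≠ 0 := by positivity
    rw [Fintype.card_fin] at this
    change ∑ k, (μ k j).real (A k c) = 1 / (r : ℝ) * ∑ k, (μ k j).real Set.univ
    rw [← this, Finset.sum_congr rfl fun k _ => eA k c j]
    field_simp
  · refine le_trans ?_ h4
    rw [← Set.ncard_coe_finset]
    refine Set.ncard_le_ncard (fun k hk => ?_) (Finset.finite_toSet _)
    simp only [Finset.coe_filter, Finset.mem_univ, true_and, Set.mem_ofPred_eq] at hk ⊢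
    exact fun c e => hk c (fA k c e)
  · refine (Int.self_le_toNat z).trans (Int.ofNat_le.2 ((h3 c).trans ?_))
    rw [← Set.ncard_coe_finset]
    refine Set.ncard_le_ncard (fun k hk => ?_) (Set.toFinite _)
    simp only [Finset.coe_filter, Finset.mem_univ, true_and, Set.mem_ofPred_eq] at hk ⊢
    exact fA k c hk

end Pool.Agent.Results.MP_2806c7_co.Yes
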